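import Pool.Agent.W203.BE.Stms

/-! Project BE: the one-dimensional complex Gaussian. -/

set_option autoImplicit false

open MeasureTheory Set Complex
open scoped ENNReal

namespace Pool.Agent.W240.BE

open Pool.Agent.W203.BE

variable {α : ℂ}

theorem ne0 (hα : 0 < α.re) : α ≠ 0 := by
  intro h
  rw [h] at hα
  simp at hα

theorem re_pos (hα : 0 < α.re) : 0 < ((Real.pi : ℂ) ^ 2 / α).re := by
  have h1 : ((Real.pi : ℂ) ^ 2 / α).re = Real.pi ^ 2 * α.re / ‖α‖ ^ 2 := by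
    rw [Complex.div_re, ← Complex.ofReal_pow, Complex.ofReal_re, Complex.ofReal_im,
      Complex.normSq_eq_norm_sq]
    ring
  rw [h1]
  have : 0 < ‖α‖ := norm_pos_iff.2 (ne0 hα)
  positivity

theorem re_eq : ((Real.pi : ℂ) ^ 2 / α).re = Real.pi ^ 2 * α.re / ‖α‖ ^ 2 := by
  rw [Complex.div_re, ← Complex.ofReal_pow, Complex.ofReal_re, Complex.ofReal_im,
    Complex.normSq_eq_norm_sq]
  ring

theorem cont : Continuous (g1 α) := by
  unfold g1
  fun_prop

theorem integ (hα : 0 < α.re) : Integrable (g1 α) :=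
  (integrable_cexp_neg_mul_sq (re_pos hα)).const_mul _

theorem nrm (x : ℝ) : ‖g1 α x‖ = Real.sqrt (Real.pi / ‖α‖) *
    Real.exp (-(Real.pi ^ 2 * α.re / ‖α‖ ^ 2 * x ^ 2)) := by
  unfold g1
  rw [norm_mul]
  congr 1
  · have h1 : (1 / 2 : ℂ) = ((1 / 2 : ℝ) : ℂ) := by push_cast; ring
    rw [h1, Complex.norm_cpow_real, norm_div, Complex.norm_real, Real.norm_eq_abs,
      abs_of_pos Real.pi_pos, Real.sqrt_eq_rpow]
  · rw [norm_cexp_neg_mul_sq, re_eq, neg_mul]

theorem l1 (hα : 0 < α.re) :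
    ∫⁻ x, ‖g1 α x‖ₑ = ENNReal.ofReal (Real.sqrt (‖α‖ / α.re)) := by
  have hn : 0 < ‖α‖ := norm_pos_iff.2 (ne0 hα)
  rw [← ofReal_integral_norm_eq_lintegral_enorm (integ hα)]
  congr 1
  simp_rw [nrm, ← neg_mul]
  rw [integral_const_mul, integral_gaussian, ← Real.sqrt_mul (by positivity)]
  congr 1
  field_simp

theorem ft_int (hα : 0 < α.re) (x : ℝ) : Integrable (fun ξ : ℝ => cexp (-(α * (ξ : ℂ) ^ 2)) *
    cexp (2 * (Real.pi : ℂ) * I * ((x * ξ : ℝ) : ℂ))) := by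
  have h1 := integrable_cexp_quadratic hα (2 * (Real.pi : ℂ) * I * x) 0
  refine h1.congr (Filter.Eventually.of_forall fun ξ => ?_)
  simp only
  rw [← Complex.exp_add]
  congr 1
  push_cast
  ring

theorem ft (hα : 0 < α.re) (x : ℝ) :
    g1 α x = ∫ ξ : ℝ, cexp (-(α * (ξ : ℂ) ^ 2)) *
      cexp (2 * (Real.pi : ℂ) * I * ((x * ξ : ℝ) : ℂ)) := by
  have h0 := ne0 hα
  have h1 := fourierIntegral_gaussian hα (2 * (Real.pi : ℂ) * x)
  have h2 : (∫ ξ : ℝ, cexp (-(α * (ξ : ℂ) ^ 2)) *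
      cexp (2 * (Real.pi : ℂ) * I * ((x * ξ : ℝ) : ℂ))) =
      ∫ ξ : ℝ, cexp (I * (2 * (Real.pi : ℂ) * x) * ξ) * cexp (-α * (ξ : ℂ) ^ 2) := by
    refine integral_congr_ae (Filter.Eventually.of_forall fun ξ => ?_)
    simp only
    rw [mul_comm, neg_mul]
    congr 2
    push_cast
    ring
  rw [h2, h1]
  unfold g1
  congr 2
  field_simp
  ring

theorem cst (hα : 0 < α.re) : ((Real.pi : ℂ) / α) ^ (1 / 2 : ℂ) *
    ((Real.pi : ℂ) / ((Real.pi : ℂ) ^ 2 / α)) ^ (1 / 2 : ℂ) = 1 := by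
  have h0 := ne0 hα
  have hpi : (Real.pi : ℂ) ≠ 0 := by exact_mod_cast Real.pi_ne_zero
  have h1 : (Real.pi : ℂ) / ((Real.pi : ℂ) ^ 2 / α) = ((Real.pi : ℂ) / α)⁻¹ := by
    field_simp
  have h2 : 0 < ((Real.pi : ℂ) / α).re := by
    have := re_pos hα
    have h3 : ((Real.pi : ℂ) ^ 2 / α) = (Real.pi : ℂ) * ((Real.pi : ℂ) / α) := by ring
    rw [h3, Complex.re_ofReal_mul] at this
    exact (pos_iff_pos_of_mul_pos this).1 Real.pi_pos
  have h3 : ((Real.pi : ℂ) / α).arg ≠ Real.pi := by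
    intro h
    have := (Complex.arg_eq_pi_iff.1 h).1
    linarith
  rw [h1, Complex.inv_cpow _ _ h3]
  refine mul_inv_cancel₀ ?_
  rw [Ne, Complex.cpow_eq_zero_iff]
  exact fun h => (div_ne_zero hpi h0) h.1

theorem ift (hα : 0 < α.re) (ξ : ℝ) :
    ∫ x : ℝ, g1 α x * cexp (-(2 * (Real.pi : ℂ) * I * ((x * ξ : ℝ) : ℂ))) =
    cexp (-(α * (ξ : ℂ) ^ 2)) := by
  have h0 := ne0 hα
  have hpi : (Real.pi : ℂ) ≠ 0 := by exact_mod_cast Real.pi_ne_zero
  have h1 := fourierIntegral_gaussian (re_pos hα) (-(2 * (Real.pi : ℂ) * ξ))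
  have h2 : (∫ x : ℝ, g1 α x * cexp (-(2 * (Real.pi : ℂ) * I * ((x * ξ : ℝ) : ℂ)))) =
      ((Real.pi : ℂ) / α) ^ (1 / 2 : ℂ) * ∫ x : ℝ, cexp (I * (-(2 * (Real.pi : ℂ) * ξ)) * x) *
        cexp (-((Real.pi : ℂ) ^ 2 / α) * (x : ℂ) ^ 2) := by
    rw [← integral_const_mul]
    refine integral_congr_ae (Filter.Eventually.of_forall fun x => ?_)
    simp only
    unfold g1
    rw [mul_assoc]
    congr 1
    rw [mul_comm]
    congr 2
    push_cast
    ring
  rw [h2, h1, ← mul_assoc, cst hα, one_mul]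
  congr 1
  field_simp
  ring

theorem semi (hα : 0 < α.re) {β : ℂ} (hβ : 0 < β.re) (x : ℝ) :
    ∫ y, g1 α (x - y) * g1 β y = g1 (α + β) x := by
  have hab : 0 < (α + β).re := by
    rw [Complex.add_re]
    positivity
  have hi : Integrable (fun p : ℝ × ℝ => (cexp (-(α * (p.2 : ℂ) ^ 2)) *
      cexp (2 * (Real.pi : ℂ) * I * (((x - p.1) * p.2 : ℝ) : ℂ))) * g1 β p.1)
      (volume.prod volume) := by
    have h1 : Integrable (fun p : ℝ × ℝ => g1 β p.1 * cexp (-(α * (p.2 : ℂ) ^ 2)))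
        (volume.prod volume) := by
      have h3 : Integrable (fun ξ : ℝ => cexp (-(α * (ξ : ℂ) ^ 2))) volume := by
        have := integrable_cexp_neg_mul_sq hα
        refine this.congr (Filter.Eventually.of_forall fun ξ => ?_)
        simp only [neg_mul]
      exact (integ hβ).mul_prod h3
    have h2 := h1.bdd_mul (c := 1) (f := fun p : ℝ × ℝ =>
      cexp (2 * (Real.pi : ℂ) * I * (((x - p.1) * p.2 : ℝ) : ℂ)))
      (by
        refine Continuous.aestronglyMeasurable ?_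
        fun_prop)
      (Filter.Eventually.of_forall fun p => by
        rw [Complex.norm_exp]
        refine le_of_eq ?_
        rw [Real.exp_eq_one_iff]
        have : 2 * (Real.pi : ℂ) * I * (((x - p.1) * p.2 : ℝ) : ℂ) =
            ((2 * Real.pi * ((x - p.1) * p.2) : ℝ) : ℂ) * I := by
          push_cast
          ring
        rw [this, Complex.re_ofReal_mul]
        simp)
    refine h2.congr (Filter.Eventually.of_forall fun p => ?_)
    simp only
    ring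
  calc ∫ y, g1 α (x - y) * g1 β y
      = ∫ y, ∫ ξ : ℝ, (cexp (-(α * (ξ : ℂ) ^ 2)) *
          cexp (2 * (Real.pi : ℂ) * I * (((x - y) * ξ : ℝ) : ℂ))) * g1 β y := by
        refine integral_congr_ae (Filter.Eventually.of_forall fun y => ?_)
        simp only
        rw [integral_mul_const, ← ft hα]
    _ = ∫ ξ : ℝ, ∫ y, (cexp (-(α * (ξ : ℂ) ^ 2)) *
          cexp (2 * (Real.pi : ℂ) * I * (((x - y) * ξ : ℝ) : ℂ))) * g1 β y :=
        integral_integral_swap hi
    _ = ∫ ξ : ℝ, cexp (-((α + β) * (ξ : ℂ) ^ 2)) *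
          cexp (2 * (Real.pi : ℂ) * I * ((x * ξ : ℝ) : ℂ)) := by
        refine integral_congr_ae (Filter.Eventually.of_forall fun ξ => ?_)
        simp only
        have h1 : ∀ y : ℝ, (cexp (-(α * (ξ : ℂ) ^ 2)) *
            cexp (2 * (Real.pi : ℂ) * I * (((x - y) * ξ : ℝ) : ℂ))) * g1 β y =
            (cexp (-(α * (ξ : ℂ) ^ 2)) * cexp (2 * (Real.pi : ℂ) * I * ((x * ξ : ℝ) : ℂ))) *
            (g1 β y * cexp (-(2 * (Real.pi : ℂ) * I * ((y * ξ : ℝ) : ℂ)))) := by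
          intro y
          have h2 : cexp (2 * (Real.pi : ℂ) * I * (((x - y) * ξ : ℝ) : ℂ)) =
              cexp (2 * (Real.pi : ℂ) * I * ((x * ξ : ℝ) : ℂ)) *
              cexp (-(2 * (Real.pi : ℂ) * I * ((y * ξ : ℝ) : ℂ))) := by
            rw [← Complex.exp_add]
            congr 1
            push_cast
            ring
          rw [h2]
          ring
        simp_rw [h1]
        rw [integral_const_mul, ift hβ, mul_right_comm, ← Complex.exp_add]
        congr 2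
        ring
    _ = g1 (α + β) x := (ft hab x).symm

theorem bas : S_BAS := fun _ hα =>
  ⟨cont, integ hα, nrm, l1 hα, fun x => ⟨ft_int hα x, ft hα x⟩, ift hα,
    fun _ hβ x => semi hα hβ x⟩

end Pool.Agent.W240.BE
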